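import Pool.Agent.PSS.StmtsG
import Pool.Agent.AT3.Asm

/-!
# Squad PSS, row EXC: the block of `N(R)`, `R ≤ V`, with the subpair `(V, γ)`
-/

open scoped BigOperators

noncomputable section

namespace Pool.Agent.PSS.H15

open Pool.Agent.Helper51_AWC Pool.Agent.Helper79_WRA Pool.Agent.PP Pool.Agent.PP.KF
open Pool.Agent.PP.K9 Pool.Agent.PP.K9.H97 Pool.Agent.PP.H75 Pool.Agent.PP.T3
open Pool.Agent.PFD Pool.Agent.PSS

attribute [local instance] Ideal.Quotient.field

/-- the zero extension is additive -/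
theorem ext0_add {F X : Type} [Field F] [Group X] [Finite X] (K : Subgroup X) (a b : K → F) :
    H75.ext0 K (a + b) = H75.ext0 K a + H75.ext0 K b := by
  funext x
  by_cases hx : x ∈ K
  · have h1 := H75.ext0_apply K (a + b) ⟨x, hx⟩
    have h2 := H75.ext0_apply K a ⟨x, hx⟩
    have h3 := H75.ext0_apply K b ⟨x, hx⟩
    simp only at h1 h2 h3
    rw [Pi.add_apply, h1, h2, h3, Pi.add_apply]
  · rw [Pi.add_apply, H75.ext0_supp K _ x hx, H75.ext0_supp K _ x hx, H75.ext0_supp K _ x hx,
      add_zero]

theorem ext0_zero {F X : Type} [Field F] [Group X] [Finite X] (K : Subgroup X) :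
    H75.ext0 K (0 : K → F) = 0 := by
  funext x
  by_cases hx : x ∈ K
  · have h1 := H75.ext0_apply K (0 : K → F) ⟨x, hx⟩
    simp only at h1
    rw [h1]
    rfl
  · rw [H75.ext0_supp K _ x hx]
    rfl

theorem br_add {F X : Type} [Field F] [Group X] [Finite X] (V : Subgroup X) (a b : X → F) :
    br V (a + b) = br V a + br V b := by
  funext x
  by_cases hx : x ∈ Subgroup.centralizer (V : Set X)
  · rw [Pi.add_apply, H66.br_of_mem hx, H66.br_of_mem hx, H66.br_of_mem hx, Pi.add_apply]
  · rw [Pi.add_apply, H66.br_of_not_mem hx, H66.br_of_not_mem hx, H66.br_of_not_mem hx, add_zero]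

theorem br_zero {F X : Type} [Field F] [Group X] [Finite X] (V : Subgroup X) :
    br V (0 : X → F) = 0 := by
  funext x
  by_cases hx : x ∈ Subgroup.centralizer (V : Set X)
  · rw [H66.br_of_mem hx]
  · rw [H66.br_of_not_mem hx]
    rfl

theorem exc (bnr : BnrStmt) : ExcStmt := by
  intro ℓ _ M _ hM G _ _ e V γ hL R hRV
  classical
  have hF : GoodF ℓ (FF M) := H50.fld ℓ Fact.out M hM
  have hR : IsPGroup ℓ R := hL.tp.pg.to_le hRV
  have hVC : V ≤ Subgroup.centralizer (V : Set G) := by
    intro a ha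
    rw [Subgroup.mem_centralizer_iff]
    intro b hb
    exact hL.ab b hb a ha
  have hCC : Subgroup.centralizer (V : Set G) ≤ Subgroup.centralizer (R : Set G) :=
    Subgroup.centralizer_le (show (R : Set G) ⊆ V from hRV)
  have hCN : Subgroup.centralizer (R : Set G) ≤ Subgroup.normalizer (R : Set G) :=
    Subgroup.centralizer_le_normalizer _
  have hVN : V ≤ Subgroup.normalizer (R : Set G) := hVC.trans (hCC.trans hCN)
  have hCVN : Subgroup.centralizer (V : Set G) ≤ Subgroup.normalizer (R : Set G) :=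
    hCC.trans hCN
  have hbrR : IsIdem (fun t : Subgroup.normalizer (R : Set G) => br R e t) :=
    (H20.brm ℓ (FF M) hF G R _ hR hCN le_rfl).2.2 e hL.blk.1
  have hbs : ∀ x, x ∉ Subgroup.normalizer (R : Set G) → br R e x = 0 := by
    intro x hx
    exact H66.br_of_not_mem (fun h => hx (hCN h))
  have hIV : Ix (Subgroup.centralizer (V : Set G)) (br V e) :=
    ⟨fun x hx => H66.br_of_not_mem hx,
      (H20.brm ℓ (FF M) hF G V _ hL.tp.pg le_rfl (Subgroup.centralizer_le_normalizer _)).2.2 e
        hL.blk.1⟩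
  have hγ0 : γ ≠ 0 := hL.gam.ne
  -- the block `c`
  obtain ⟨c, hc, hcc, hc3⟩ := K9.H24.exists_blk
    (fun a : Subgroup.normalizer (R : Set G) → FF M =>
      mulF γ (br V (H75.ext0 (Subgroup.normalizer (R : Set G)) a)))
    (by
      change mulF γ (br V (H75.ext0 (Subgroup.normalizer (R : Set G)) 0)) = 0
      rw [ext0_zero, br_zero]
      exact H46.mulF_zero _)
    (fun a b => by
      change mulF γ (br V (H75.ext0 (Subgroup.normalizer (R : Set G)) (a + b))) =
        mulF γ (br V (H75.ext0 (Subgroup.normalizer (R : Set G)) a)) +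
        mulF γ (br V (H75.ext0 (Subgroup.normalizer (R : Set G)) b))
      rw [ext0_add, br_add]
      exact H46.mulF_add _ _ _) hbrR (by
      change mulF γ (br V (H75.ext0 (Subgroup.normalizer (R : Set G))
        (fun t : Subgroup.normalizer (R : Set G) => br R e t))) ≠ 0
      rw [H75.ext0_res _ hbs, C2.H3.br_br hRV, hL.gam.ix.comm hIV, hL.und]
      exact hγ0)
  change mulF γ (br V (H75.ext0 (Subgroup.normalizer (R : Set G)) c)) ≠ 0 at hc3
  obtain ⟨δ, hδ⟩ : ∃ δ : G → FF M, δ = H75.ext0 (Subgroup.normalizer (R : Set G)) c := ⟨_, rfl⟩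
  rw [← hδ] at hc3
  have hδs : ∀ x, x ∉ Subgroup.normalizer (R : Set G) → δ x = 0 := by
    rw [hδ]
    exact H75.ext0_supp _ c
  have hδC : (fun t : Subgroup.normalizer (R : Set G) => δ t) = c := by
    rw [hδ]
    exact funext (H75.ext0_apply _ c)
  have hVp : IsPGroup ℓ (V.subgroupOf (Subgroup.normalizer (R : Set G))) :=
    hL.tp.pg.comap_of_injective (Subgroup.normalizer (R : Set G)).subtype
      (Subgroup.normalizer (R : Set G)).subtype_injective
  have hIx : Ix (Subgroup.centralizer (V : Set G)) (br V δ) := by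
    refine ⟨fun x hx => H66.br_of_not_mem hx, ?_⟩
    have h1 := (H20.brm ℓ (FF M) hF (Subgroup.normalizer (R : Set G))
      (V.subgroupOf (Subgroup.normalizer (R : Set G))) _ hVp le_rfl
      (Subgroup.centralizer_le_normalizer _)).2.2 _ hc.1
    have h2 : (fun t : Subgroup.centralizer (V : Set G) => br V δ t) = fun t =>
        br (V.subgroupOf (Subgroup.normalizer (R : Set G))) c
          ((H85.cequiv hVN hCVN).symm t : Subgroup.normalizer (R : Set G)) := by
      funext t
      rw [H66.br_of_mem t.2, H66.br_of_mem ((H85.cequiv hVN hCVN).symm t).2]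
      rw [← hδC]
      rfl
    rw [h2]
    exact (H20.IsIdem_equiv (H85.cequiv hVN hCVN).symm).2 h1
  have hγc : mulF (br V δ) γ = γ := by
    rw [hIx.comm hL.gam.ix]
    rcases hL.gam.dich' hIx with h2 | h2
    · exact h2
    · exact absurd h2 hc3
  -- the order of the defect groups
  obtain ⟨g, -, hg⟩ := bnr ℓ M hM G e V γ hL R hR c hc hcc
  have hT : Tp ℓ c (V.subgroupOf (Subgroup.normalizer (R : Set G))) := by
    refine ⟨hVp, ?_, ?_⟩
    · have h1 : br V δ ≠ 0 := by
        intro h
        apply hc3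
        rw [h]
        exact H46.mulF_zero _
      obtain ⟨x, hx, hx0⟩ := C2.H3.gd_of_br' h1
      refine ⟨⟨x, hCVN hx⟩, (cent_sub hVN _).2 hx, ?_⟩
      have h2 := congrFun hδC ⟨x, hCVN hx⟩
      rw [← h2]
      exact hx0
    · intro Q hQ hQc
      refine (hg.tp.mx Q hQ hQc).trans ?_
      have h1 : Nat.card ((conjS g V).subgroupOf (Subgroup.normalizer (R : Set G))) ≤
          Nat.card (conjS g V) := by
        refine Nat.card_le_card_of_injective
          (fun x => (⟨(x : Subgroup.normalizer (R : Set G)), Subgroup.mem_subgroupOf.1 x.2⟩ :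
            conjS g V)) ?_
        intro x y hxy
        apply Subtype.ext
        apply Subtype.ext
        exact congrArg (fun t : conjS g V => (t : G)) hxy
      rw [card_conjS] at h1
      rwa [Nat.card_congr (Subgroup.subgroupOfEquivOfLe hVN).toEquiv]
  have h1 := H85.ld_of hVN hCVN hL.ab (b := δ) (γ := γ) (by rw [hδC]; exact hc) hL.gam hγc
    (by rw [hδC]; exact hT)
  rw [hδC] at h1
  exact ⟨c, h1⟩

end Pool.Agent.PSS.H15
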